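import Mathlib

set_option autoImplicit false

namespace Pool.Agent.H.MP_4de4a9_lc

inductive Sb {α β : Type} (R : α → Set (List β)) : List α → List β → Prop
  | nil : Sb R [] []
  | cons {c x w y} : w ∈ R c → Sb R x y → Sb R (c :: x) (w ++ y)

section
variable {α β γ : Type}

theorem Sb.append {R : α → Set (List β)} {x x' y y'} (h : Sb R x y) (h' : Sb R x' y') : Sb R (x ++ x') (y ++ y') := by
  induction h with
  | nil => exact h'
  | cons a _ ih => rw [List.append_assoc]; exact .cons a ih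

theorem sb_nil {R : α → Set (List β)} {y} : Sb R [] y ↔ y = [] := ⟨fun h => by cases h; rfl, fun h => h ▸ .nil⟩

theorem sb_cons {R : α → Set (List β)} {c x z} : Sb R (c :: x) z ↔ ∃ w ∈ R c, ∃ y, Sb R x y ∧ z = w ++ y :=
  ⟨fun h => by cases h with | cons a b => exact ⟨_, a, _, b, rfl⟩, fun ⟨_, a, _, b, e⟩ => e ▸ .cons a b⟩

theorem sb_one {R : α → Set (List β)} {c z} : Sb R [c] z ↔ z ∈ R c := by
  simp [sb_cons, sb_nil]

theorem sb_append {R : α → Set (List β)} {x x' z} :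
    Sb R (x ++ x') z ↔ ∃ y y', Sb R x y ∧ Sb R x' y' ∧ z = y ++ y' := by
  refine ⟨fun h => ?_, fun ⟨_, _, a, b, e⟩ => e ▸ a.append b⟩
  induction x generalizing z with
  | nil => exact ⟨[], z, .nil, h, rfl⟩
  | cons c x ih =>
    obtain ⟨w, a, y, b, rfl⟩ := sb_cons.1 h
    obtain ⟨y1, y2, b1, b2, rfl⟩ := ih b
    exact ⟨w ++ y1, y2, .cons a b1, b2, by simp⟩

theorem Sb.mono {R R' : α → Set (List β)} {x y} (h : Sb R x y)
    (H : ∀ c ∈ x, ∀ w ∈ R c, w <:+: y → w ∈ R' c) : Sb R' x y := by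
  induction h with
  | nil => exact .nil
  | cons a _ ih =>
    exact .cons (H _ (by simp) _ a (List.prefix_append _ _).isInfix) (ih fun c hc w hw e =>
      H c (by simp [hc]) w hw (e.trans (List.suffix_append _ _).isInfix))

theorem sb_comp {R : α → Set (List β)} {R' : β → Set (List γ)} {x z} :
    Sb (fun c => {z | ∃ w ∈ R c, Sb R' w z}) x z ↔ ∃ y, Sb R x y ∧ Sb R' y z := by
  constructor
  · intro h
    induction h with
    | nil => exact ⟨[], .nil, .nil⟩
    | cons a _ ih =>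
      obtain ⟨w, a1, a2⟩ := a
      obtain ⟨y, b1, b2⟩ := ih
      exact ⟨_, .cons a1 b1, a2.append b2⟩
  · rintro ⟨y, h, h'⟩
    induction h generalizing z with
    | nil => exact sb_nil.1 h' ▸ .nil
    | cons a _ ih =>
      obtain ⟨y1, y2, b1, b2, rfl⟩ := sb_append.1 h'
      exact .cons ⟨_, a, b1⟩ (ih b2)

theorem Sb.of_mem {R : α → Set (List β)} {x y c} (h : Sb R x y) (hc : c ∈ x) : ∃ w ∈ R c, w <:+: y := by
  obtain ⟨s, t, rfl⟩ := List.append_of_mem hc
  obtain ⟨y1, y2, -, b2, rfl⟩ := sb_append.1 h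
  obtain ⟨w, a, y, -, rfl⟩ := sb_cons.1 b2
  exact ⟨w, a, y1, y, by simp⟩

theorem sb_map {f : α → List β} {R : α → Set (List β)} {x} (h : ∀ c ∈ x, f c ∈ R c) : Sb R x (x.flatMap f) := by
  induction x with
  | nil => exact .nil
  | cons c x ih => exact .cons (h c (by simp)) (ih fun d hd => h d (by simp [hd]))

theorem Sb.eq {f : α → List β} {R : α → Set (List β)} {x y} (h : Sb R x y)
    (H : ∀ c ∈ x, ∀ w ∈ R c, w = f c) : y = x.flatMap f := by
  induction h with
  | nil => rfl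
  | cons a _ ih => rw [List.flatMap_cons, ← H _ (by simp) _ a, ← ih fun d hd => H d (by simp [hd])]

theorem Sb.down {g : α → Set (List β)} {f : β → List γ} {x y} (h : Sb g x y) :
    Sb (fun c => (List.flatMap f) '' g c) x (y.flatMap f) := by
  induction h with
  | nil => exact .nil
  | cons a _ ih => rw [List.flatMap_append]; exact .cons ⟨_, a, rfl⟩ ih

theorem Sb.up {g : α → Set (List β)} {f : β → List γ} {R : α → Set (List γ)} {P : β → Prop} {x y} (h : Sb R x y)
    (H : ∀ c ∈ x, ∀ w ∈ R c, ∃ v ∈ g c, v.flatMap f = w ∧ ∀ e ∈ v, P e) :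
    ∃ z, Sb g x z ∧ z.flatMap f = y ∧ ∀ e ∈ z, P e := by
  induction h with
  | nil => exact ⟨[], .nil, rfl, by simp⟩
  | cons a _ ih =>
    obtain ⟨v, b1, rfl, b3⟩ := H _ (by simp) _ a
    obtain ⟨z, c1, rfl, c3⟩ := ih fun d hd => H d (by simp [hd])
    exact ⟨v ++ z, .cons b1 c1, by simp, fun e he => (List.mem_append.1 he).elim (b3 e) (c3 e)⟩

theorem sb_flat {f : α → List β} {R : β → Set (List γ)} {x z} :
    Sb R (x.flatMap f) z ↔ Sb (fun c => {z | Sb R (f c) z}) x z := by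
  have : Sb (fun c => {z | ∃ w ∈ ({f c} : Set _), Sb R w z}) x z ↔ _ := sb_comp
  simp only [Set.mem_singleton_iff, exists_eq_left] at this
  rw [this]
  exact ⟨fun h => ⟨_, sb_map fun _ _ => rfl, h⟩, fun ⟨y, a, b⟩ => a.eq (f := f) (fun _ _ _ e => e) ▸ b⟩

open Classical in
/-- rewrite one letter -/
def upd (b : α) (A : Set (List α)) (c : α) : Set (List α) := if c = b then A else {[c]}

theorem upd_same {b : α} {A} : upd b A b = A := if_pos rfl
theorem upd_ne {b c : α} {A} (h : c ≠ b) : upd b A c = {[c]} := if_neg h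

theorem Sb.keep {b c : α} {A x y} (h : Sb (upd b A) x y) (hc : c ∈ x) (n : c ≠ b) : c ∈ y := by
  obtain ⟨w, a, e⟩ := h.of_mem hc
  rw [upd_ne n] at a
  exact e.subset (by rw [a]; simp)

theorem sb_upd {b : α} {A x y} (n : b ∉ x) : Sb (upd b A) x y ↔ y = x := by
  have k : ∀ c ∈ x, upd b A c = {[c]} := fun c hc => upd_ne fun e => n (e ▸ hc)
  refine ⟨fun h => ?_, fun e => ?_⟩
  · simpa using h.eq (f := fun c => [c]) fun c hc w hw => by rwa [k c hc] at hw
  · simpa [e] using sb_map (R := upd b A) (x := x) (f := fun c => [c]) fun c hc => by rw [k c hc]; rfl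
end

/-- letters of the simulating system -/
inductive Lt (D S : Type) | d (x : D) | p (x : D) | q (s : S) | f

open Lt

section
variable {D S : Type}

instance [Finite D] [Finite S] : Finite (Lt D S) :=
  Finite.of_surjective (fun z : D ⊕ D ⊕ Option S => match z with
    | .inl x => d x | .inr (.inl x) => p x | .inr (.inr (some s)) => q s | .inr (.inr none) => f) fun
    | d x => ⟨.inl x, rfl⟩ | p x => ⟨.inr (.inl x), rfl⟩ | q s => ⟨.inr (.inr (some s)), rfl⟩
    | f => ⟨.inr (.inr none), rfl⟩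

def pr : Lt D S → List D | d x => [x] | _ => []

theorem mem_pr {z : List (Lt D S)} {x} : x ∈ z.flatMap pr ↔ d x ∈ z := by
  rw [List.mem_flatMap]
  exact ⟨fun ⟨c, a, b⟩ => by cases c <;> simp_all [pr], fun h => ⟨_, h, by simp [pr]⟩⟩

theorem pr_map (x : List D) : (x.map (d : D → Lt D S)).flatMap pr = x := by
  simp [List.flatMap_map, pr]

/-- controlled system -/
structure Ctl (D S : Type) where
  φ : S
  u : S → D
  r : S → Set (List D)
  E : S → S → Prop
  fill : S → List (Lt D S)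
  hfill : ∀ s c, c ∈ fill s ↔ ∃ j ≠ s, c = q j

variable (C : Ctl D S)

theorem Ctl.pr_fill (s : S) : (C.fill s).flatMap pr = [] := by
  rw [List.flatMap_eq_nil_iff]
  intro c hc
  obtain ⟨j, -, rfl⟩ := (C.hfill s c).1 hc
  rfl

inductive Ctl.Rule : Lt D S → Lt D S → Set (List (Lt D S)) → Prop
  | R (s) : (C.r s).Nonempty → Rule (p (C.u s)) (d (C.u s)) ((fun y => y.map d ++ C.fill s) '' C.r s)
  | P (x) : Rule (d x) (p x) {[]}
  | M (i j) : C.E i j → Rule (q i) (q j) {[q i, p (C.u i)]}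
  | Z (j) : Rule (q C.φ) (q j) {[]}

open Classical in
def T2 (a b : Lt D S) (A : Set (List (Lt D S))) (c : Lt D S) : Set (List (Lt D S)) :=
  if c = a then {[f]} else upd b A c

def Ctl.Step (z z' : List (Lt D S)) : Prop := ∃ a b A, C.Rule a b A ∧ Sb (T2 a b A) z z'

def Ctl.AStep (c c' : S × List D) : Prop :=
  (c'.1 = c.1 ∧ Sb (upd (C.u c.1) (C.r c.1)) c.2 c'.2) ∨ (C.E c.1 c'.1 ∧ C.u c.1 ∉ c.2 ∧ c'.2 = c.2)

theorem t2_iff {a b : Lt D S} {A z z'} (n : a ∉ z) : Sb (T2 a b A) z z' ↔ Sb (upd b A) z z' := by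
  have k : ∀ c ∈ z, T2 a b A c = upd b A c := fun c hc => if_neg fun e : c = a => n (e ▸ hc)
  exact ⟨fun h => h.mono fun c hc w hw _ => k c hc ▸ hw, fun h => h.mono fun c hc w hw _ => (k c hc).symm ▸ hw⟩

theorem t2_or {a b : Lt D S} {A z z'} (h : Sb (T2 a b A) z z') : f ∈ z' ∨ (a ∉ z ∧ Sb (upd b A) z z') := by
  by_cases n : a ∈ z
  · obtain ⟨w, a1, e⟩ := h.of_mem n
    rw [T2, if_pos rfl] at a1
    exact .inl (e.subset (by rw [a1]; simp))
  · exact .inr ⟨n, (t2_iff n).1 h⟩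

def Doom (z : List (Lt D S)) : Prop := f ∈ z ∨ (∀ j, q j ∈ z) ∨ ∃ x, d x ∈ z ∧ p x ∈ z

theorem pr_same {b : Lt D S} {A z z'} (h : Sb (upd b A) z z') (hb : pr b = []) (hA : ∀ w ∈ A, w.flatMap pr = []) :
    z'.flatMap pr = z.flatMap pr :=
  h.down.eq fun c _ w ⟨v, hv, e⟩ => by
    by_cases n : c = b
    · subst n; rw [upd_same] at hv; rw [← e, hb]; exact hA v hv
    · rw [upd_ne n] at hv; rw [← e, hv]; simp

theorem Ctl.sound {I : S → List D → Prop} (h1 : ∀ c c', C.AStep c c' → I c.1 c.2 → I c'.1 c'.2)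
    (h2 : ∀ x, I C.φ x → ∀ s, C.u s ∉ x) {z z'} (st : C.Step z z')
    (h : Doom z ∨ ∃ s, I s (z.flatMap pr) ∧ (s = C.φ ∨ ∀ j ≠ s, q j ∈ z)) :
    Doom z' ∨ ∃ s, I s (z'.flatMap pr) ∧ (s = C.φ ∨ ∀ j ≠ s, q j ∈ z') := by
  obtain ⟨a, b, A, r, st0⟩ := st
  obtain e | ⟨n, st⟩ := t2_or st0
  · exact .inl (.inl e)
  clear st0
  by_cases hb : b ∈ z
  swap
  · exact (sb_upd hb).1 st ▸ h
  obtain ⟨w, w1, w2⟩ := st.of_mem hb
  rw [upd_same] at w1
  obtain (e | e | ⟨x, e1, e2⟩) | ⟨s, i1, i2⟩ := h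
  · exact .inl (.inl (st.keep e (by cases r <;> simp)))
  · refine .inl (.inr (.inl fun j => st.keep (e j) ?_))
    cases r <;> first | exact (n (e _)).elim | simp
  · refine .inl (.inr (.inr ⟨x, st.keep e1 ?_, st.keep e2 ?_⟩))
    · cases r <;> simp; rintro rfl; exact n e2
    · cases r <;> simp; rintro rfl; exact n e1
  cases r with
  | R s' ne =>
    obtain rfl | i2 := i2
    · exact (h2 _ i1 _ (mem_pr.2 hb)).elim
    have k : ∀ j ≠ s, q j ∈ z' := fun j hj => st.keep (i2 j hj) (by simp)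
    by_cases e : s' = s
    · subst e
      refine .inr ⟨s', h1 (s', z.flatMap pr) (s', z'.flatMap pr) (.inl ⟨rfl, sb_flat.2 (st.down.mono fun c _ v ⟨v', a1, a2⟩ _ => ?_)⟩) i1, .inr k⟩
      by_cases n : c = d (C.u s')
      · subst n
        rw [upd_same] at a1
        obtain ⟨y, b1, rfl⟩ := a1
        refine sb_one.2 ?_
        rw [upd_same, ← a2]
        simpa [pr_map, C.pr_fill] using b1
      · rw [upd_ne n] at a1
        rw [← a2, a1]
        refine (sb_upd ?_).2 (by simp)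
        cases c <;> simp_all [pr, eq_comm]
    · obtain ⟨y, -, rfl⟩ := w1
      refine .inl (.inr (.inl fun j => ?_))
      by_cases e' : j = s
      · exact w2.subset (List.mem_append_right _ ((C.hfill _ _).2 ⟨j, e' ▸ Ne.symm e, rfl⟩))
      · exact k j e'
  | P x => exact .inr ⟨s, pr_same st rfl (by simp) ▸ i1, i2.imp_right fun k j hj => st.keep (k j hj) (by simp)⟩
  | M i j e =>
    have k := pr_same st rfl (by simp [pr])
    obtain rfl | i2 := i2
    · exact .inr ⟨_, k ▸ i1, .inl rfl⟩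
    obtain rfl : i = s := by_contra fun e => n (i2 i e)
    obtain rfl : w = _ := w1
    by_cases e' : d (C.u i) ∈ z
    · exact .inl (.inr (.inr ⟨_, st.keep e' (by simp), w2.subset (by simp)⟩))
    refine .inr ⟨j, h1 (i, z.flatMap pr) (j, z'.flatMap pr) (.inr ⟨e, mt mem_pr.1 e', k⟩) i1, .inr fun l hl => ?_⟩
    by_cases e' : l = i
    · exact w2.subset (by simp [e'])
    · exact st.keep (i2 l e') (by simpa)
  | Z j =>
    by_cases e : s = C.φ
    · exact .inr ⟨_, pr_same st rfl (by simp) ▸ i1, .inl e⟩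
    · exact (n (i2.resolve_left e _ (Ne.symm e))).elim

def Good (P : S → Prop) (c : Lt D S) : Prop := (∃ x, c = d x) ∨ ∃ j, P j ∧ c = q j

theorem ctl_step {a b : Lt D S} {A z} {P : Lt D S → Prop} (n : a ∉ z) (w) (hw : w ∈ A) (hb : pr b = [])
    (e : w.flatMap pr = []) (h1 : ∀ c ∈ w, P c) (h2 : ∀ c ∈ z, c ≠ b → P c) :
    ∃ z', Sb (T2 a b A) z z' ∧ z'.flatMap pr = z.flatMap pr ∧ ∀ c ∈ z', P c := by
  simp only [t2_iff n]
  refine (sb_map (R := fun c => {pr c}) fun _ _ => rfl).up fun c hc v hv => ?_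
  by_cases n : c = b
  · subst n; exact ⟨w, upd_same.symm ▸ hw, by rw [e, hv, hb], h1⟩
  · exact ⟨[c], by rw [upd_ne n]; rfl, by simpa using hv.symm, by simpa using h2 c hc n⟩

theorem Ctl.sim {c c'} (st : C.AStep c c') {z} (e : z.flatMap pr = c.2) (g : ∀ a ∈ z, Good (· ≠ c.1) a) :
    ∃ z', Relation.ReflTransGen C.Step z z' ∧ z'.flatMap pr = c'.2 ∧ ∀ a ∈ z', Good (· ≠ c'.1) a := by
  obtain ⟨s, x⟩ := c
  obtain ⟨s', x'⟩ := c'
  obtain rfl : _ = x := e
  obtain ⟨rfl, st⟩ | ⟨a1, a2, rfl⟩ := st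
  · dsimp only at st g ⊢
    by_cases hb : C.u s' ∈ z.flatMap pr
    swap
    · exact ⟨z, .refl, ((sb_upd hb).1 st).symm, g⟩
    obtain ⟨w, w1, -⟩ := st.of_mem hb
    rw [upd_same] at w1
    have n : p (C.u s') ∉ z := fun h => by simpa [Good] using g _ h
    obtain ⟨z', b1, b2, b3⟩ := (sb_flat.1 st).up (f := pr) (P := Good (· ≠ s'))
      (g := upd (d (C.u s')) ((fun y => y.map d ++ C.fill s') '' C.r s')) fun c hc v hv => by
        by_cases n : c = d (C.u s')
        · subst n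
          have := sb_one.1 hv
          rw [upd_same] at this ⊢
          refine ⟨_, ⟨v, this, rfl⟩, by simp [pr_map, C.pr_fill], fun a ha => ?_⟩
          rcases List.mem_append.1 ha with ha | ha
          · obtain ⟨y, -, rfl⟩ := List.mem_map.1 ha; exact .inl ⟨_, rfl⟩
          · exact .inr ((C.hfill _ _).1 ha)
        · refine ⟨[c], by rw [upd_ne n]; rfl, ?_, by simpa using g c hc⟩
          refine Eq.symm ((sb_upd ?_).1 hv |>.trans (by simp))
          cases c <;> simp_all [pr, eq_comm]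
    exact ⟨z', .single ⟨_, _, _, .R s' ⟨w, w1⟩, (t2_iff n).2 b1⟩, b2, b3⟩
  · dsimp only at a1 a2 g ⊢
    by_cases e : s' = s
    · exact ⟨z, .refl, rfl, e ▸ g⟩
    obtain ⟨z1, b1, b2, b3⟩ := ctl_step (a := q s) (b := q s') (A := {[q s, p (C.u s)]}) (z := z)
      (P := fun c => c = p (C.u s) ∨ Good (· ≠ s') c) (fun h => by simpa [Good] using g _ h) _ rfl rfl rfl
      (by simpa [Good] using Ne.symm e) fun c hc n => .inr ((g c hc).imp_right fun ⟨j, _, e⟩ =>
        ⟨j, fun e' => n (e' ▸ e), e⟩)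
    obtain ⟨z2, c1, c2, c3⟩ := ctl_step (a := d (C.u s)) (b := p (C.u s)) (A := {[]}) (z := z1)
      (P := Good (· ≠ s')) (fun h => a2 (b2 ▸ mem_pr.2 h)) _ rfl rfl rfl (by simp)
      fun c hc n => (b3 c hc).resolve_left n
    exact ⟨z2, .tail (.single ⟨_, _, _, .M _ _ a1, b1⟩) ⟨_, _, _, .P _, c1⟩, c2.trans b2, c3⟩

theorem Ctl.complete [Finite S] {s x x'} (st : Relation.ReflTransGen C.AStep (s, x) (C.φ, x')) :
    Relation.ReflTransGen C.Step (x.map d ++ C.fill s) (x'.map d) := by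
  have k : ∀ c, Relation.ReflTransGen C.AStep (s, x) c → ∃ z', Relation.ReflTransGen C.Step (x.map d ++ C.fill s) z' ∧
      z'.flatMap pr = c.2 ∧ ∀ a ∈ z', Good (· ≠ c.1) a := fun c h => by
    induction h with
    | refl =>
      refine ⟨_, .refl, by simp [pr_map, C.pr_fill], fun a ha => ?_⟩
      rcases List.mem_append.1 ha with ha | ha
      · obtain ⟨y, -, rfl⟩ := List.mem_map.1 ha; exact .inl ⟨_, rfl⟩
      · exact .inr ((C.hfill _ _).1 ha)
    | tail _ st ih =>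
      obtain ⟨z, a1, a2, a3⟩ := ih
      obtain ⟨z', b1, b2⟩ := C.sim st a2 a3
      exact ⟨z', a1.trans b1, b2⟩
  have k2 : ∀ U : Set S, ∃ z', Relation.ReflTransGen C.Step (x.map d ++ C.fill s) z' ∧
      z'.flatMap pr = x' ∧ ∀ a ∈ z', Good (fun j => j ≠ C.φ ∧ j ∉ U) a := fun U => by
    induction U, U.toFinite using Set.Finite.induction_on with
    | empty => simpa using k _ st
    | @insert j U _ _ ih =>
      obtain ⟨z, a1, a2, a3⟩ := ih
      obtain ⟨z2, c1, c2, c3⟩ := ctl_step (a := q C.φ) (b := q j) (A := {[]}) (z := z)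
        (P := Good fun i => i ≠ C.φ ∧ i ∉ insert j U) (fun h => by simpa [Good] using a3 _ h) _ rfl rfl rfl (by simp)
        fun c hc n => (a3 c hc).imp_right fun ⟨i, e1, e2⟩ => ⟨i, ⟨e1.1, fun e => e.elim (fun e' => n (e' ▸ e2)) e1.2⟩, e2⟩
      exact ⟨z2, a1.tail ⟨_, _, _, .Z _, c1⟩, c2.trans a2, c3⟩
  obtain ⟨z, a1, rfl, a3⟩ := k2 Set.univ
  have : (z.flatMap pr).map d = z := by
    clear a1 st k k2
    induction z with
    | nil => rfl
    | cons c z ih =>
      obtain ⟨y, rfl⟩ | ⟨j, e, -⟩ := a3 c (by simp)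
      · simpa [pr] using ih fun a ha => a3 a (by simp [ha])
      · simp at e
  rwa [this]
end

end Pool.Agent.H.MP_4de4a9_lc
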