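import Pool.Agent.H.MP_4de4a9_lc.A

set_option autoImplicit false

namespace Pool.Agent.H.MP_4de4a9_lc

open Relation

section
variable {Δ X : Type} (K : Set (X → Set (List X))) (ι : Δ ↪ X)

abbrev St := Option (Bool × Option K × Set X × X)

def tg (b : Bool) (y : List X) : List ((X × Bool) ⊕ Δ) := y.map fun a => .inl (a, b)

variable {K} in
def out (b : Bool) : Option K → X → Set (List ((X × Bool) ⊕ Δ))
  | some h, a => tg (!b) '' h.1 a
  | none, a => {w | ∃ τ, ι τ = a ∧ w = [.inr τ]}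

variable {K} in
theorem out_not {b t a c w} (h : w ∈ out (K := K) ι b t c) : Sum.inl (a, b) ∉ w := by
  cases t with
  | some t => obtain ⟨y, -, rfl⟩ := h; simp [tg]
  | none => obtain ⟨y, -, rfl⟩ := h; simp

open Classical in
noncomputable def ctl [Finite X] [Finite K] (a₀ : X) : Ctl ((X × Bool) ⊕ Δ) (St K) where
  φ := none
  u s := s.elim (.inl (a₀, false)) fun s => .inl (s.2.2.2, s.1)
  r s := s.elim ∅ fun s => out ι s.1 s.2.1 s.2.2.2
  E s s' := ∃ b t U a, s = some (b, t, U, a) ∧ ((∃ a', s' = some (b, t, insert a U, a')) ∨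
    (U = Set.univ ∧ ((t = none ∧ s' = none) ∨ (t ≠ none ∧ ∃ t' a', s' = some (!b, t', ∅, a')))))
  fill s := ((Set.toFinite {j | j ≠ s}).toFinset.toList).map Lt.q
  hfill s c := by simp [eq_comm]

def Stp (x y : List X) : Prop := ∃ h ∈ K, Sb h x y

def Inv (ω : List X) : St K → List ((X × Bool) ⊕ Δ) → Prop
  | none, x => ∃ w : List Δ, ReflTransGen (Stp K) ω (w.map ι) ∧ x = w.map .inr
  | some (b, t, U, _), x => ∃ y, ReflTransGen (Stp K) ω y ∧
      Sb (fun c => {w | (w = [.inl (c, b)] ∧ c ∉ U) ∨ w ∈ out ι b t c}) y x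

theorem sb_tg {h : X → Set (List X)} {b y x} :
    Sb (fun c => tg (Δ := Δ) b '' h c) y x ↔ ∃ y', Sb h y y' ∧ x = tg b y' := by
  induction y generalizing x with
  | nil => simp [sb_nil, tg]
  | cons c y ih =>
    simp only [sb_cons, ih]
    constructor
    · rintro ⟨_, ⟨w, a, rfl⟩, _, ⟨y', e, rfl⟩, rfl⟩
      exact ⟨_, ⟨w, a, y', e, rfl⟩, by simp [tg]⟩
    · rintro ⟨_, ⟨w, a, y', e, rfl⟩, rfl⟩
      exact ⟨_, ⟨w, a, rfl⟩, _, ⟨y', e, rfl⟩, by simp [tg]⟩

theorem sb_ter {b y x} : Sb (out (K := K) ι b none) y x ↔ ∃ w : List Δ, y = w.map ι ∧ x = w.map .inr := by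
  induction y generalizing x with
  | nil => simp [sb_nil]
  | cons c y ih =>
    simp only [sb_cons, ih]
    constructor
    · rintro ⟨_, ⟨τ, rfl, rfl⟩, _, ⟨w, rfl, rfl⟩, rfl⟩
      exact ⟨τ :: w, rfl, rfl⟩
    · rintro ⟨_ | ⟨τ, w⟩, e, rfl⟩
      · cases e
      · cases e; exact ⟨_, ⟨τ, rfl, rfl⟩, _, ⟨w, rfl, rfl⟩, rfl⟩

variable [Finite X] [Finite K] (a₀ : X) (ω : List X)

theorem inv_step (c c') (st : (ctl K ι a₀).AStep c c') (h : Inv K ι ω c.1 c.2) : Inv K ι ω c'.1 c'.2 := by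
  obtain ⟨s, x⟩ := c
  obtain ⟨s', x'⟩ := c'
  obtain ⟨rfl, st⟩ | ⟨⟨b, t, U, a, rfl, e⟩, a2, rfl⟩ := st
  · obtain _ | ⟨b, t, U, a⟩ := s'
    · obtain ⟨w, h1, rfl⟩ := h
      exact ⟨w, h1, (sb_upd (by simp [ctl])).1 st⟩
    · obtain ⟨y, h1, h2⟩ := h
      refine ⟨y, h1, (sb_comp.2 ⟨_, h2, st⟩).mono fun c _ w ⟨v, v1, v2⟩ _ => ?_⟩
      obtain ⟨rfl, e⟩ | v1 := v1
      · have := sb_one.1 v2
        by_cases n : c = a
        · subst n; exact .inr (by simpa [ctl, upd_same] using this)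
        · rw [upd_ne (by simpa [ctl] using n)] at this; exact .inl ⟨this, e⟩
      · exact .inr ((sb_upd (out_not ι v1)).1 v2 ▸ v1)
  · obtain ⟨y, h1, h2⟩ := h
    obtain ⟨a', rfl⟩ | ⟨rfl, e⟩ := e
    · refine ⟨y, h1, h2.mono fun c _ w hw e => hw.imp_left fun ⟨e1, e2⟩ => ⟨e1, fun z => z.elim (fun z => ?_) e2⟩⟩
      subst z e1
      exact a2 (e.subset (by simp [ctl]))
    have h3 : Sb (out ι b t) y x' := h2.mono fun c _ w hw _ => hw.resolve_left (by simp)
    obtain ⟨rfl, rfl⟩ | ⟨n, t', a', rfl⟩ := e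
    · obtain ⟨w, rfl, rfl⟩ := (sb_ter K ι).1 h3
      exact ⟨w, h1, rfl⟩
    · obtain _ | h := t
      · exact (n rfl).elim
      obtain ⟨y', b1, rfl⟩ := sb_tg.1 h3
      refine ⟨y', h1.tail ⟨h, h.2, b1⟩, ?_⟩
      rw [tg, List.map_eq_flatMap]
      exact sb_map fun c _ => .inl ⟨rfl, id⟩

theorem mix {b t y x} (h : Sb (out (K := K) ι b t) y x) : ∃ F : Set X → List ((X × Bool) ⊕ Δ), F ∅ = tg b y ∧
    F Set.univ = x ∧ ∀ U a, Sb (upd (.inl (a, b)) (out ι b t a)) (F U) (F (insert a U)) ∧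
      Sum.inl (a, b) ∉ F (insert a U) := by
  classical
  induction h with
  | nil => exact ⟨fun _ => [], rfl, rfl, fun _ _ => ⟨.nil, by simp⟩⟩
  | @cons c y w x hw _ ih =>
    obtain ⟨F, f1, rfl, f3⟩ := ih
    refine ⟨fun U => (if c ∈ U then w else [.inl (c, b)]) ++ F U, by simp [f1, tg], by simp,
      fun U a => ⟨.append ?_ (f3 U a).1, ?_⟩⟩
    · by_cases e : c ∈ U
      · rw [if_pos e, if_pos (Set.mem_insert_of_mem _ e), sb_upd (out_not ι hw)]
      · rw [if_neg e, sb_one]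
        by_cases n : c = a
        · subst n; simpa [upd_same] using hw
        · rw [upd_ne (by simpa using n), if_neg (by simp [e, n])]; rfl
    · rw [List.mem_append, not_or]
      refine ⟨?_, (f3 U a).2⟩
      split_ifs with e
      · exact out_not ι hw
      · simp at e ⊢; exact Ne.symm e.1

theorem round {b t y x c} (h : Sb (out (K := K) ι b t) y x)
    (H : ∀ a, ReflTransGen (ctl K ι a₀).AStep c (some (b, t, ∅, a), tg b y)) (s')
    (e : (t = none ∧ s' = none) ∨ (t ≠ none ∧ ∃ t' a', s' = some (!b, t', ∅, a'))) :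
    ReflTransGen (ctl K ι a₀).AStep c (s', x) := by
  obtain ⟨F, f1, rfl, f3⟩ := mix K ι h
  have k : ∀ U : Set X, ∀ a, ReflTransGen (ctl K ι a₀).AStep c (some (b, t, U, a), F U) := fun U => by
    induction U, U.toFinite using Set.Finite.induction_on with
    | empty => exact f1 ▸ H
    | @insert j U _ _ ih =>
      exact fun a => ((ih j).tail (c := (some (b, t, U, j), F (insert j U))) (.inl ⟨rfl, (f3 U j).1⟩)).tail
        (.inr ⟨⟨b, t, U, j, rfl, .inl ⟨a, rfl⟩⟩, (f3 U j).2, rfl⟩)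
  exact (k _ a₀).tail (.inr ⟨⟨b, t, _, a₀, rfl, .inr ⟨rfl, e⟩⟩, by simpa [ctl] using (f3 Set.univ a₀).2, rfl⟩)

open Lt in
theorem simul (i : K) (hi : i.1 = fun c => {[c]}) (w : List Δ) :
    ReflTransGen (ctl K ι a₀).Step ((tg false ω).map d ++ (ctl K ι a₀).fill (some (true, some i, Set.univ, a₀)))
      (w.map fun τ => d (.inr τ)) ↔ ReflTransGen (Stp K) ω (w.map ι) := by
  constructor
  · intro h
    have k : ∀ z, ReflTransGen (ctl K ι a₀).Step
        ((tg false ω).map d ++ (ctl K ι a₀).fill (some (true, some i, Set.univ, a₀))) z →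
        Doom z ∨ ∃ s, Inv K ι ω s (z.flatMap pr) ∧ (s = (ctl K ι a₀).φ ∨ ∀ j ≠ s, q j ∈ z) := fun z h => by
      induction h with
      | refl =>
        refine .inr ⟨some (true, some i, Set.univ, a₀), ⟨ω, .refl, ?_⟩,
          .inr fun j hj => List.mem_append_right _ ((Ctl.hfill _ _ _).2 ⟨j, hj, rfl⟩)⟩
        rw [List.flatMap_append, pr_map, Ctl.pr_fill, List.append_nil, tg, List.map_eq_flatMap]
        exact sb_map fun c _ => .inr ⟨[c], by rw [hi]; rfl, rfl⟩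
      | tail _ st ih =>
        refine Ctl.sound _ (inv_step K ι a₀ ω) ?_ st ih
        rintro _ ⟨w, -, rfl⟩ (_ | s) <;> simp [ctl]
    obtain e | ⟨s, e1, e2⟩ := k _ h
    · simp [Doom] at e
    obtain rfl : s = none := by_contra fun n => by simpa using e2.resolve_left n none (Ne.symm n)
    obtain ⟨w', b1, b2⟩ := e1
    have : w.map (Sum.inr : Δ → (X × Bool) ⊕ Δ) = w'.map Sum.inr := by rw [← b2, ← pr_map (S := St K) (w.map _), List.map_map]; rfl
    rwa [List.map_injective_iff.2 Sum.inr_injective this]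
  · intro h
    have k : ∀ y, ReflTransGen (Stp K) ω y → ∃ b, ∀ t a, ReflTransGen (ctl K ι a₀).AStep
        (some (true, some i, Set.univ, a₀), tg false ω) (some (b, t, ∅, a), tg b y) := fun y h => by
      induction h with
      | refl =>
        exact ⟨false, fun t a => .single (.inr ⟨⟨_, _, _, _, rfl, .inr ⟨rfl, .inr ⟨by simp, t, a, rfl⟩⟩⟩,
          by simp [ctl, tg], rfl⟩)⟩
      | tail _ st ih =>
        obtain ⟨b, ih⟩ := ih
        obtain ⟨h, h1, h2⟩ := st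
        exact ⟨!b, fun t a => round K ι a₀ (t := some ⟨h, h1⟩) (sb_tg.2 ⟨_, h2, rfl⟩) (ih _) _
          (.inr ⟨by simp, t, a, rfl⟩)⟩
    obtain ⟨b, k⟩ := k _ h
    have := (ctl K ι a₀).complete (round K ι a₀ ((sb_ter K ι).2 ⟨w, rfl, rfl⟩) (k none) none (.inl ⟨rfl, rfl⟩))
    rwa [List.map_map] at this

theorem rule_fin [Finite Δ] : {g | ∃ a b A, (ctl K ι a₀).Rule a b A ∧ g = T2 a b A}.Finite := by
  refine (Set.finite_range fun z : Lt ((X × Bool) ⊕ Δ) (St K) × Lt ((X × Bool) ⊕ Δ) (St K) × Option (St K ⊕ St K) =>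
    T2 z.1 z.2.1 (match z.2.2 with
      | none => {[]}
      | some (.inl s) => (fun y => List.map Lt.d y ++ (ctl K ι a₀).fill s) '' (ctl K ι a₀).r s
      | some (.inr i) => {[Lt.q i, Lt.p ((ctl K ι a₀).u i)]})).subset ?_
  rintro _ ⟨a, b, A, r, rfl⟩
  cases r with
  | R s => exact ⟨(_, _, some (.inl s)), rfl⟩
  | P => exact ⟨(_, _, none), rfl⟩
  | M i => exact ⟨(_, _, some (.inr i)), rfl⟩
  | Z => exact ⟨(_, _, none), rfl⟩

theorem rule_tab (hK : ∀ h ∈ K, ∀ c, (h c).Finite) {a b A} (r : (ctl K ι a₀).Rule a b A) : A.Finite ∧ A.Nonempty := by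
  cases r with
  | R s ne =>
    refine ⟨.image _ ?_, ne.image _⟩
    obtain _ | ⟨b, _ | h, U, a⟩ := s
    · exact Set.finite_empty
    · refine Set.Subsingleton.finite ?_
      rintro _ ⟨τ, e, rfl⟩ _ ⟨τ', e', rfl⟩
      rw [ι.injective (e.trans e'.symm)]
    · exact (hK _ h.2 _).image _
  | _ => simp
end

end Pool.Agent.H.MP_4de4a9_lc
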