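import Pool.Agent.H.MP_4de4a9_lc.B

set_option autoImplicit false

namespace Pool.Agent.H.MP_4de4a9_lc

open Relation

/-- sorted words in which all five letters occur equally often, at least once -/
def Bal (w : List (Fin 5)) : Prop := w.Pairwise (· ≤ ·) ∧ ∃ n, 0 < n ∧ ∀ i, w.count i = n

theorem Bal.ext {w w'} (h : Bal w) (h' : Bal w') (k : Fin 5) (e : w.count k = w'.count k) : w = w' := by
  obtain ⟨s, n, -, a⟩ := h
  obtain ⟨s', n', -, a'⟩ := h'
  refine List.Perm.eq_of_pairwise (fun a b _ _ => le_antisymm) s s' (List.perm_iff_count.2 fun i => ?_)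
  rw [a, a', ← a k, ← a' k, e]

theorem mid {u y v : List (Fin 5)} (h : (u ++ y ++ v).Pairwise (· ≤ ·)) {i j k : Fin 5} (hi : i ∈ y) (hj : j ∈ y)
    (h1 : i < k) (h2 : k < j) : (u ++ y ++ v).count k = y.count k ∧ k ∉ u ∧ k ∉ v := by
  simp only [List.pairwise_append, List.mem_append] at h
  have a : k ∉ u := fun e => (h.1.2.2 _ e _ hi).not_gt h1
  have b : k ∉ v := fun e => (h.2.2 _ (.inr hj) _ e).not_gt h2
  simp [List.count_eq_zero_of_not_mem a, List.count_eq_zero_of_not_mem b, a, b]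

theorem one {u y y' v} (h : Bal (u ++ y ++ v)) (h' : Bal (u ++ y' ++ v)) (e : y' <:+: u ++ y ++ v) :
    u ++ y ++ v = u ++ y' ++ v := by
  refine h.ext h' 2 ?_
  obtain ⟨s, n, -, a⟩ := h
  obtain ⟨s', n', p', a'⟩ := h'
  rw [a, a']
  have c : ∀ i, y.count i + n' = y'.count i + n := fun i => by
    have := a i; have := a' i; simp only [List.count_append] at *; omega
  rcases lt_trichotomy n n' with l | l | l
  · have m : ∀ i, i ∈ y' := fun i => List.count_pos_iff.1 (by have := c i; omega)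
    have := (mid s' (m 0) (m 4) (k := 2) (by decide) (by decide)).1
    have := e.sublist.count_le 2
    have := a 2; have := a' 2; omega
  · exact l
  · have m : ∀ i, i ∈ y := fun i => List.count_pos_iff.1 (by have := c i; omega)
    have m' : ∀ k : Fin 5, 0 < k → k < 4 → y'.count k = n' := fun k h1 h2 => by
      have := (mid s (m 0) (m 4) h1 h2).1
      have := a k; have := c k; omega
    obtain ⟨p, q, e⟩ := e
    rw [← e] at s a
    have := (mid s (i := 1) (j := 3) (k := 2) (List.count_pos_iff.1 (by rw [m' 1 (by decide) (by decide)]; exact p'))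
      (List.count_pos_iff.1 (by rw [m' 3 (by decide) (by decide)]; exact p')) (by decide) (by decide)).1
    rw [← a 2, this, m' 2 (by decide) (by decide)]

section
variable {X : Type}

theorem swap {A A' : X → Set (List (Fin 5))} {c x w y'} (e : ∀ d ≠ c, A d = A' d) (hy : y' ∈ A' c) (h : Sb A x w) :
    ∃ w', Sb A' x w' ∧ ∀ k, (∀ y ∈ A c, k ∉ y) → k ∉ y' → w.count k = w'.count k := by
  induction h with
  | nil => exact ⟨[], .nil, fun _ _ _ => rfl⟩
  | @cons d x y w a _ ih =>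
    obtain ⟨w', b1, b2⟩ := ih
    by_cases n : d = c
    · subst n
      exact ⟨_, .cons hy b1, fun k h1 h2 => by
        simp [b2 k h1 h2, List.count_eq_zero_of_not_mem (h1 _ a), List.count_eq_zero_of_not_mem h2]⟩
    · exact ⟨_, .cons (e d n ▸ a) b1, fun k h1 h2 => by simp [b2 k h1 h2]⟩

theorem pure {A : X → Set (List (Fin 5))} {c x₁ x₂ x₃ w} (hA : ∀ w, Sb A (x₁ ++ c :: (x₂ ++ c :: x₃)) w → Bal w)
    (h : Sb A (x₁ ++ c :: (x₂ ++ c :: x₃)) w) : ∃ i, ∀ y ∈ A c, ∀ k ∈ y, k = i := by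
  simp only [sb_append, sb_cons] at h
  obtain ⟨u1, _, a1, ⟨_, -, _, ⟨u2, _, a2, ⟨_, -, u3, a3, -⟩, -⟩, -⟩, -⟩ := h
  have k : ∀ y ∈ A c, ∀ z ∈ A c, ∀ i ∈ y, ∀ j ∈ z, i ≤ j := fun y hy z hz i hi j hj => by
    have := (hA _ (a1.append (.cons hy (a2.append (.cons hz a3))))).1
    simp only [List.pairwise_append, List.mem_append] at this
    exact this.2.1.2.2 _ hi _ (.inr (.inl hj))
  by_cases n : ∃ y ∈ A c, ∃ i, i ∈ y
  · obtain ⟨y, hy, i, hi⟩ := n
    exact ⟨i, fun z hz j hj => le_antisymm (k _ hz _ hy _ hj _ hi) (k _ hy _ hz _ hi _ hj)⟩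
  · exact ⟨0, fun y hy i hi => (n ⟨y, hy, i, hi⟩).elim⟩

theorem skip {A A' : X → Set (List (Fin 5))} {c x w y'} (e : ∀ d ≠ c, A d = A' d) (hy : y' ∈ A' c) (hw : y' <:+: w)
    (hA : ∀ w, Sb A x w → Bal w) (hA' : ∀ w, Sb A' x w → Bal w) (h : Sb A x w) : Sb A' x w := by
  have tr : ∀ x w, c ∉ x → Sb A x w → Sb A' x w := fun x w n h =>
    h.mono fun d hd v hv _ => e d (fun z => n (z ▸ hd)) ▸ hv
  by_cases n : c ∈ x
  swap
  · exact tr _ _ n h
  obtain ⟨x₁, x₂, rfl, n1⟩ := List.eq_append_cons_of_mem n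
  by_cases n2 : c ∈ x₂
  · obtain ⟨x₂, x₃, rfl⟩ := List.append_of_mem n2
    obtain ⟨w', b1, b2⟩ := swap e hy h
    obtain ⟨i, hi⟩ := pure hA h
    obtain ⟨j, hj⟩ := pure hA' b1
    obtain ⟨k, k1, k2⟩ : ∃ k, k ≠ i ∧ k ≠ j := by clear hi hj; revert i j; decide
    rwa [(hA _ h).ext (hA' _ b1) k (b2 k (fun y hy z => k1 (hi y hy k z)) fun z => k2 (hj _ hy k z))]
  · have h0 := h
    simp only [sb_append, sb_cons] at h
    obtain ⟨u, _, a1, ⟨y, -, v, a2, rfl⟩, rfl⟩ := h
    have b := (tr _ _ n1 a1).append (.cons hy (tr _ _ n2 a2))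
    rw [← List.append_assoc] at *
    rwa [one (hA _ h0) (hA' _ b) hw]

def Ys {β : Type} (R : X → Set (List β)) : List (X → Set (List X)) → X → Set (List β)
  | [] => R
  | h :: σ => fun c => {z | ∃ w ∈ h c, Sb (Ys R σ) w z}

theorem ys_app {β : Type} {R : X → Set (List β)} {σ τ} : Ys R (σ ++ τ) = Ys (Ys R τ) σ := by
  induction σ with
  | nil => rfl
  | cons h σ ih => simp only [List.cons_append, Ys, ih]

theorem sb_id {x y : List X} : Sb (fun c => {[c]}) x y ↔ y = x :=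
  ⟨fun h => by simpa using h.eq (f := fun c => [c]) fun _ _ _ e => e,
    fun e => by simpa [e] using sb_map (R := fun c => {[c]}) (x := x) (f := fun c => [c]) fun _ _ => rfl⟩

theorem ys_iff {β : Type} {R : X → Set (List β)} {σ x w} :
    Sb (Ys R σ) x w ↔ ∃ z, Sb (Ys (fun c => {[c]}) σ) x z ∧ Sb R z w := by
  induction σ generalizing x with
  | nil => simp [Ys, sb_id]
  | cons h σ ih =>
    simp only [Ys, sb_comp, ih]
    constructor
    · rintro ⟨y, a, z, b, c⟩; exact ⟨z, ⟨y, a, b⟩, c⟩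
    · rintro ⟨z, ⟨y, a, b⟩, c⟩; exact ⟨y, a, z, b, c⟩

theorem ys_fix {β : Type} {R : X → Set (List β)} {σ c} (h : ∀ g ∈ σ, g c = {[c]}) : Ys R σ c = R c := by
  induction σ with
  | nil => rfl
  | cons g σ ih => simp [Ys, h g, sb_one, ih fun g' e => h g' (by simp [e])]

theorem reach_iff {K : Set (X → Set (List X))} {x z} :
    ReflTransGen (Stp K) x z ↔ ∃ σ, (∀ h ∈ σ, h ∈ K) ∧ Sb (Ys (fun c => {[c]}) σ) x z := by
  constructor
  · intro h
    induction h using ReflTransGen.head_induction_on with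
    | refl => exact ⟨[], by simp, sb_id.2 rfl⟩
    | head a _ ih =>
      obtain ⟨h, a1, a2⟩ := a
      obtain ⟨σ, b1, b2⟩ := ih
      exact ⟨h :: σ, by simpa [a1] using b1, sb_comp.2 ⟨_, a2, b2⟩⟩
  · rintro ⟨σ, h1, h2⟩
    induction σ generalizing x with
    | nil => exact sb_id.1 h2 ▸ .refl
    | cons h σ ih =>
      obtain ⟨y, a, b⟩ := sb_comp.1 h2
      exact .head ⟨h, h1 _ (by simp), a⟩ (ih (fun g e => h1 g (by simp [e])) b)

theorem dup {α : Type} (t : α → X) {l : List α} (h : ¬ (l.map t).Nodup) :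
    ∃ l₁ a l₂ b l₃, l = l₁ ++ a :: (l₂ ++ b :: l₃) ∧ t b = t a ∧ ∀ g ∈ l₂, t g ≠ t a := by
  induction l with
  | nil => simp at h
  | cons a l ih =>
    by_cases n : (l.map t).Nodup
    · have : t a ∈ l.map t := by_contra fun e => h (List.nodup_cons.2 ⟨e, n⟩)
      obtain ⟨s, u, e, n'⟩ := List.eq_append_cons_of_mem this
      obtain ⟨l₂, l, rfl, rfl, e'⟩ := List.map_eq_append_iff.1 e
      clear e
      obtain ⟨b, l₃, rfl, e, -⟩ := List.map_eq_cons_iff.1 e'
      exact ⟨[], a, l₂, b, l₃, rfl, e, fun g hg z => n' (z ▸ List.mem_map_of_mem hg)⟩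
    · obtain ⟨l₁, r, l₂, b, l₃, rfl, e⟩ := ih n
      exact ⟨a :: l₁, r, l₂, b, l₃, rfl, e⟩

theorem sb_fin {β : Type} {R : X → Set (List β)} (h : ∀ c, (R c).Finite) (x) : {y | Sb R x y}.Finite := by
  induction x with
  | nil => simp [sb_nil]
  | cons c x ih =>
    refine (Set.Finite.image2 (· ++ ·) (h c) ih).subset fun y hy => ?_
    obtain ⟨w, a, y, b, rfl⟩ := sb_cons.1 hy
    exact ⟨w, a, y, b, rfl⟩

theorem lower [Finite X] {K : Set (X → Set (List X))} (hK : K.Finite) (hf : ∀ h ∈ K, ∀ c, (h c).Finite)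
    (t : (X → Set (List X)) → X) (ht : ∀ h ∈ K, ∀ c ≠ t h, h c = {[c]}) (ι : Fin 5 ↪ X) (ω : List X)
    (hB : ∀ w : List (Fin 5), ReflTransGen (Stp K) ω (w.map ι) → Bal w) :
    {w : List (Fin 5) | ReflTransGen (Stp K) ω (w.map ι)}.Finite := by
  let R : X → Set (List (Fin 5)) := fun c => {w | w.map ι = [c]}
  have hR : ∀ z w, Sb R z w ↔ z = w.map ι := fun z w => by
    refine ⟨fun h => ?_, fun e => ?_⟩
    · induction h with
      | nil => rfl
      | cons a _ ih => rw [List.map_append, ← ih, show List.map ι _ = _ from a]; rfl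
    · subst e
      induction w with
      | nil => exact .nil
      | cons a w ih => exact .cons (w := [a]) rfl ih
  have hL : ∀ w : List (Fin 5), ReflTransGen (Stp K) ω (w.map ι) ↔ ∃ σ, (∀ h ∈ σ, h ∈ K) ∧ Sb (Ys R σ) ω w :=
    fun w => by simp only [reach_iff, ys_iff (R := R), hR, exists_eq_right]
  have fin : ∀ σ, (∀ h ∈ σ, h ∈ K) → ∀ c, (Ys R σ c).Finite := fun σ hσ => by
    induction σ with
    | nil =>
      exact fun c => Set.Subsingleton.finite fun _ a _ b =>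
        List.map_injective_iff.2 ι.injective (Eq.trans a (Eq.symm b))
    | cons h σ ih =>
      refine fun c => ((hf h (hσ _ (by simp)) c).biUnion fun w _ =>
        sb_fin (ih fun g e => hσ g (by simp [e])) w).subset ?_
      rintro z ⟨w, a, b⟩
      exact Set.mem_biUnion a b
  have := Fintype.ofFinite X
  have key : ∀ n σ w, List.length σ = n → (∀ h ∈ σ, h ∈ K) → Sb (Ys R σ) ω w →
      ∃ σ, (∀ h ∈ σ, h ∈ K) ∧ σ.length ≤ Fintype.card X ∧ Sb (Ys R σ) ω w := fun n => by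
    induction n with
    | zero => exact fun σ w e a b => ⟨σ, a, by omega, b⟩
    | succ n ih =>
      intro σ w e a b
      by_cases l : σ.length ≤ Fintype.card X
      · exact ⟨σ, a, l, b⟩
      obtain ⟨σ₁, g, σ₂, g', σ₃, rfl, e1, e2⟩ := dup t (l := σ) fun z => l (by simpa using z.length_le_card)
      have hg : g ∈ K := a _ (by simp)
      have hg' : g' ∈ K := a _ (by simp)
      have b' := b
      rw [← List.cons_append, ← List.append_assoc, ys_app, ys_iff] at b'
      obtain ⟨z, z1, z2⟩ := b'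
      by_cases m : t g ∈ z
      swap
      · refine ih (σ₁ ++ g :: σ₂ ++ σ₃) w (by simp at e ⊢; omega) (fun h z => a h (by simp at z ⊢; tauto)) ?_
        rw [ys_app, ys_iff]
        refine ⟨z, z1, z2.mono fun c hc v hv _ => ?_⟩
        simpa [Ys, ht _ hg' c fun q => m (e1 ▸ q ▸ hc), sb_one] using hv
      obtain ⟨y', y1, y2⟩ := z2.of_mem m
      have a' : ∀ h ∈ σ₁ ++ (σ₂ ++ g' :: σ₃), h ∈ K := fun h z => a h (by simp at z ⊢; tauto)
      refine ih _ w (by simp at e ⊢; omega) a' ?_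
      rw [ys_app, ys_iff] at b ⊢
      obtain ⟨x, x1, x2⟩ := b
      refine ⟨x, x1, skip (c := t g) (fun d n => ?_) ?_ y2 (fun w hw => hB w ((hL w).2 ⟨_, a, ?_⟩))
        (fun w hw => hB w ((hL w).2 ⟨_, a', ?_⟩)) x2⟩
      · simp [Ys, ht _ hg d n, sb_one]
      · rwa [ys_app, ys_fix fun h z => ht h (a h (by simp [z])) _ (e2 h z).symm]
      · rw [ys_app, ys_iff]; exact ⟨x, x1, hw⟩
      · rw [ys_app, ys_iff]; exact ⟨x, x1, hw⟩
  have hs : {σ : List (X → Set (List X)) | (∀ h ∈ σ, h ∈ K) ∧ σ.length ≤ Fintype.card X}.Finite := by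
    have := hK.to_subtype
    refine ((List.finite_length_le K (Fintype.card X)).image (List.map Subtype.val)).subset fun σ ⟨a, b⟩ => ?_
    lift σ to List K using a
    exact ⟨σ, by simpa using b, rfl⟩
  refine (hs.biUnion fun σ hσ => sb_fin (fin σ hσ.1) ω).subset fun w hw => ?_
  obtain ⟨σ, a, b⟩ := (hL w).1 hw
  obtain ⟨σ, a, b, c⟩ := key _ σ w rfl a b
  exact Set.mem_biUnion (x := σ) ⟨a, b⟩ c
end

end Pool.Agent.H.MP_4de4a9_lc
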